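import Pool.Agent.H99.HM.Targets

/-! # MP_6a9259_mp, modules UP, EXP, COMP -/

set_option autoImplicit false

namespace Pool.Agent.H47.HM.EXP

open MeasureTheory Set Filter Topology Real
open Pool.Agent.H99.HM

theorem up (hA : T_adm) : T_up := by
  intro xs ells x ell h hxs hxlim hllim hadm
  have hF := hA h hadm
  have hx0 : 0 ≤ x := ge_of_tendsto' hxlim hxs
  have hatt : Tendsto (fun n => att (xs n) h) atTop (𝓝 (att x h)) := by
    unfold att
    refine tendsto_integral_of_dominated_convergence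
      (fun t => Sf (Vg h) t / (0 + t) ^ 2 + Sf (Vg h) t ^ 2 / (0 + t) ^ 2) ?_ ?_ ?_ ?_
    · intro n
      refine ContinuousOn.aestronglyMeasurable ?_ measurableSet_Ioi
      have hSc : ContinuousOn (Sf (Vg h)) (Ioi 0) := hF.Scont.mono Ioi_subset_Ici_self
      refine ContinuousOn.div (hSc.sub ((hSc.pow 2).div_const 2)) ?_ ?_
      · exact ((continuous_const.add continuous_id).pow 2).continuousOn
      · intro t ht
        have h1 : 0 < t := ht
        have h2 := hxs n
        positivity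
    · exact (hF.int1 0 le_rfl).add (hF.int2 0 le_rfl)
    · intro n
      refine (ae_restrict_mem measurableSet_Ioi).mono fun t ht => ?_
      have ht0 : 0 < t := ht
      have hxn := hxs n
      have hS0 := hF.Snn t ht0.le
      set S := Sf (Vg h) t
      rw [norm_div, Real.norm_of_nonneg (show (0 : ℝ) ≤ (xs n + t) ^ 2 by positivity), ← add_div]
      have hnum : ‖S - S ^ 2 / 2‖ ≤ S + S ^ 2 := by
        rw [Real.norm_eq_abs, abs_le]
        constructor <;> nlinarith
      have hden : (0 + t) ^ 2 ≤ (xs n + t) ^ 2 := by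
        apply pow_le_pow_left₀ (by linarith); linarith
      exact div_le_div₀ (by positivity) hnum (by positivity) hden
    · refine (ae_restrict_mem measurableSet_Ioi).mono fun t ht => ?_
      have ht0 : 0 < t := ht
      refine Tendsto.div tendsto_const_nhds ((hxlim.add_const t).pow 2) ?_
      positivity
  unfold J
  exact (tendsto_const_nhds.add (hllim.mul_const _)).sub hatt

theorem Mf_nonneg (s : ℝ → ℝ) : 0 ≤ Mf s := by
  unfold Mf
  have : 0 ≤ ∫ t in Ioi (0 : ℝ), s t ^ 2 := integral_nonneg fun t => sq_nonneg _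
  positivity

theorem exp (hA : T_adm) (hL : T_lsc) : T_exp := by
  intro x ell hx hell
  have h0 : Adm (fun _ => (0 : ℝ)) := by
    refine ⟨MemLp.zero, ?_⟩
    have : Vg (fun _ => (0 : ℝ)) = fun _ => 0 := by
      funext t; simp [Vg]
    rw [this]; exact MemLp.zero
  have hbd : ∀ g, Adm g → 2 * π * (∫ τ in Ioi (0 : ℝ), g τ ^ 2) + ell * Mf (Vg g) - 1 / 2
      ≤ J x ell g := fun g hg => (hA g hg).Jbd x ell hx
  have hint : ∀ g : ℝ → ℝ, 0 ≤ ∫ τ in Ioi (0 : ℝ), g τ ^ 2 := fun g =>
    integral_nonneg fun t => sq_nonneg _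
  have hlow : ∀ g, Adm g → -(1 / 2) ≤ J x ell g := by
    intro g hg
    have h1 := hbd g hg
    have h2 := hint g
    have h3 := Mf_nonneg (Vg g)
    have h4 : 0 ≤ 2 * π * (∫ τ in Ioi (0 : ℝ), g τ ^ 2) := by positivity
    have h5 : 0 ≤ ell * Mf (Vg g) := by positivity
    linarith
  set S : Set ℝ := J x ell '' {g | Adm g} with hS
  have hne : S.Nonempty := ⟨_, _, h0, rfl⟩
  have hbb : BddBelow S := ⟨-(1 / 2), by rintro _ ⟨g, hg, rfl⟩; exact hlow g hg⟩
  set m := sInf S with hm
  have hex : ∀ n : ℕ, ∃ g, Adm g ∧ J x ell g < m + 1 / ((n : ℝ) + 1) := by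
    intro n
    have : m < m + 1 / ((n : ℝ) + 1) := by
      have : (0 : ℝ) < 1 / ((n : ℝ) + 1) := by positivity
      linarith
    obtain ⟨_, ⟨g, hg, rfl⟩, hlt⟩ := exists_lt_of_csInf_lt hne this
    exact ⟨g, hg, hlt⟩
  choose gs hgs hJ using hex
  have hle1 : ∀ n : ℕ, J x ell (gs n) ≤ m + 1 := by
    intro n
    have h1 : 1 / ((n : ℝ) + 1) ≤ 1 := by
      rw [div_le_one (by positivity)]
      have : (0 : ℝ) ≤ n := Nat.cast_nonneg n
      linarith
    linarith [hJ n]
  have hk : ∀ n, 2 * π * (∫ τ in Ioi (0 : ℝ), gs n τ ^ 2) ≤ m + 3 / 2 := by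
    intro n
    have h1 := hbd _ (hgs n)
    have h5 : 0 ≤ ell * Mf (Vg (gs n)) := mul_nonneg hell.le (Mf_nonneg _)
    linarith [hle1 n]
  have hM : ∀ n, Mf (Vg (gs n)) ≤ (m + 3 / 2) / ell := by
    intro n
    rw [le_div_iff₀ hell]
    have h1 := hbd _ (hgs n)
    have h4 : 0 ≤ 2 * π * (∫ τ in Ioi (0 : ℝ), gs n τ ^ 2) := by
      have := hint (gs n); positivity
    linarith [hle1 n]
  have hm0 : 0 ≤ m + 3 / 2 := by
    have h4 : 0 ≤ 2 * π * (∫ τ in Ioi (0 : ℝ), gs 0 τ ^ 2) := by
      have := hint (gs 0); positivity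
    exact h4.trans (hk 0)
  obtain ⟨ψ, h, hψ, hadm, -, -, -, hJh⟩ := hL (fun _ => x) (fun _ => ell) x ell gs
    (2 * (m + 3 / 2) + (m + 3 / 2) / ell) (fun _ => hx) (fun _ => hell.le) tendsto_const_nhds
    tendsto_const_nhds hgs (by
      intro n
      unfold kin
      have h1 := hk n
      have h2 : 0 ≤ (m + 3 / 2) / ell := by positivity
      linarith) (by
      intro n
      have h1 := hM n
      linarith)
  have hJm : J x ell h ≤ m := by
    refine le_of_forall_pos_le_add fun ε hε => ?_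
    refine hJh (m + ε) ?_
    obtain ⟨N, hN⟩ := exists_nat_one_div_lt hε
    filter_upwards [eventually_ge_atTop N] with n hn
    have h1 := hJ (ψ n)
    have h2 : 1 / ((ψ n : ℝ) + 1) ≤ 1 / ((N : ℝ) + 1) := by
      apply one_div_le_one_div_of_le (by positivity)
      have : N ≤ ψ n := hn.trans (hψ.id_le n)
      have : (N : ℝ) ≤ (ψ n : ℝ) := by exact_mod_cast this
      linarith
    linarith
  exact ⟨h, hadm, fun k hk => hJm.trans (csInf_le hbb ⟨k, hk, rfl⟩)⟩

theorem comp (hFa : T_facts) (hA : T_adm) (hE : T_energy) (hBL : T_BL) (hK2 : T_K2)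
    (hMin : T_min) (hL : T_lsc) (hU : T_up) (hEL : T_EL) (hN : T_neg) : T_comp := by
  intro xs ells x ell ss s1s hxlim hllim hExt
  have hxs : ∀ n, 0 ≤ xs n := fun n => (hExt n).x0
  have hells : ∀ n, 0 ≤ ells n := fun n => (hExt n).l0
  have hx0 : 0 ≤ x := ge_of_tendsto' hxlim hxs
  have hell0 : 0 ≤ ell := ge_of_tendsto' hllim hells
  have hvg : ∀ n t, 0 ≤ t → Vg (s1s n) t = ss n t := fun n => (hFa _ _ _ _ (hExt n)).vg
  have hadm : ∀ n, Adm (s1s n) := fun n => (hE _ _ _ _ (hExt n)).1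
  have hSf : ∀ n t, 0 ≤ t → Sf (Vg (s1s n)) t = Sf (ss n) t := by
    intro n t ht
    unfold Sf
    congr 1
    refine intervalIntegral.integral_congr fun τ hτ => ?_
    rw [uIcc_of_le ht] at hτ
    simp only [hvg n τ hτ.1]
  have hMf : ∀ n, Mf (Vg (s1s n)) = Mf (ss n) := by
    intro n
    unfold Mf
    congr 1
    refine setIntegral_congr_fun measurableSet_Ioi fun τ hτ => ?_
    simp only [hvg n τ (le_of_lt hτ)]
  obtain ⟨ψ, h, hψ, hh, hV, hS, -, hJ⟩ := hL xs ells x ell s1s 2 hxs hells hxlim hllim hadm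
    (fun n => ((hK2 _ _ _ _ (hExt n)).1).trans (by norm_num))
    (fun n => by rw [hMf n]; exact (hBL _ _ _ _ (hExt n)).le)
  have hmin : IsMin x ell h := by
    refine ⟨hh, fun k hk => ?_⟩
    refine le_of_forall_pos_le_add fun ε hε => ?_
    refine hJ _ ?_
    have h1 : Tendsto (fun n => J (xs (ψ n)) (ells (ψ n)) k) atTop (𝓝 (J x ell k)) :=
      (hU xs ells x ell k hxs hxlim hllim hk).comp hψ.tendsto_atTop
    have h2 : ∀ᶠ n in atTop, J (xs (ψ n)) (ells (ψ n)) k < J x ell k + ε :=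
      h1.eventually (gt_mem_nhds (by linarith))
    filter_upwards [h2] with n hn
    obtain ⟨-, h3⟩ := hMin _ _ _ _ (hExt (ψ n)) k hk
    have h4 : 0 ≤ ∫ t in Ioi (0 : ℝ), (Sf (Vg k) t - Sf (ss (ψ n)) t) ^ 2 / (xs (ψ n) + t) ^ 2 :=
      integral_nonneg fun t => by positivity
    linarith
  have hlim1 : ∀ t, 0 ≤ t → Tendsto (fun n => ss (ψ n) t) atTop (𝓝 (Vg h t)) := by
    intro t ht
    exact (hV t ht).congr fun n => hvg (ψ n) t ht
  have hlim2 : ∀ t, 0 ≤ t → Tendsto (fun n => Sf (ss (ψ n)) t) atTop (𝓝 (Sf (Vg h) t)) := by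
    intro t ht
    exact (hS t ht).congr fun n => hSf (ψ n) t ht
  have hnn : ∀ t, 0 ≤ t → 0 ≤ Vg h t := by
    intro t ht
    refine ge_of_tendsto' (hlim1 t ht) fun n => ?_
    rcases ht.lt_or_eq with h1 | h1
    · exact ((hExt (ψ n)).pos t h1).le
    · rw [← h1, (hExt (ψ n)).zero]
  rcases hEL x ell h hx0 hell0 hmin with hz | ⟨s, s1, hs, -, hor⟩
  · refine ⟨ψ, h, Vg h, fun _ => 0, hψ, hmin, fun t _ => rfl, hlim1, hlim2, Or.inl ⟨?_, hz⟩⟩
    rcases hell0.lt_or_eq with h1 | h1
    · exact h1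
    · exfalso
      obtain ⟨k, hk, hneg⟩ := hN x hx0
      have h2 := hmin.2 k hk
      rw [← h1] at h2
      have h3 : 0 ≤ J x 0 h := by
        have hFh := hA h hh
        have hS0 : ∀ t, 0 ≤ t → Sf (Vg h) t = 0 := by
          intro t ht
          unfold Sf
          have : ∫ τ in (0 : ℝ)..t, Vg h τ ^ 2 = 0 := by
            have e : ∫ τ in (0 : ℝ)..t, Vg h τ ^ 2 = ∫ τ in (0 : ℝ)..t, (0 : ℝ) := by
              refine intervalIntegral.integral_congr fun τ hτ => ?_
              rw [uIcc_of_le ht] at hτ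
              simp [hz τ hτ.1]
            rw [e]; simp
          rw [this, mul_zero]
        have hatt : att x h = 0 := by
          unfold att
          have e : ∫ t in Ioi (0 : ℝ), (Sf (Vg h) t - Sf (Vg h) t ^ 2 / 2) / (x + t) ^ 2
              = ∫ t in Ioi (0 : ℝ), (0 : ℝ) := by
            refine setIntegral_congr_fun measurableSet_Ioi fun t ht => ?_
            simp [hS0 t (le_of_lt ht)]
          rw [e]; simp
        unfold J
        rw [hatt]
        have : 0 ≤ kin h := by
          unfold kin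
          have : 0 ≤ ∫ t in Ioi (0 : ℝ), h t ^ 2 := integral_nonneg fun t => sq_nonneg _
          positivity
        linarith
      linarith
  · have hsV : ∀ t, 0 ≤ t → s t = Vg h t := by
      rcases hor with h1 | h1
      · exact h1
      · exfalso
        have e1 := h1 1 zero_le_one
        have e2 := hs.pos 1 zero_lt_one
        have e3 := hnn 1 zero_le_one
        linarith
    refine ⟨ψ, h, s, s1, hψ, hmin, hsV, ?_, ?_, Or.inr hs⟩
    · intro t ht
      rw [hsV t ht]
      exact hlim1 t ht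
    · intro t ht
      have e : Sf s t = Sf (Vg h) t := by
        unfold Sf
        congr 1
        refine intervalIntegral.integral_congr fun τ hτ => ?_
        rw [uIcc_of_le ht] at hτ
        simp only [hsV τ hτ.1]
      rw [e]
      exact hlim2 t ht

end Pool.Agent.H47.HM.EXP
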