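import Pool.Agent.H99.HM.Targets
import Pool.Agent.H58.Stab.M8

/-! # MP_6a9259_mp, module LSC: weak compactness and lower semicontinuity -/

set_option autoImplicit false

namespace Pool.Agent.H47.HM.LSC

open MeasureTheory Set Filter Topology Real
open Pool.Agent.H99.HM

/-- `L²(0,∞)`. -/
noncomputable abbrev L2 := Lp ℝ 2 (volume.restrict (Ioi (0 : ℝ)))

theorem inner_toLp {g h : ℝ → ℝ} (hg : MemLp g 2 (volume.restrict (Ioi (0 : ℝ))))
    (hh : MemLp h 2 (volume.restrict (Ioi (0 : ℝ)))) :
    inner ℝ (hg.toLp g) (hh.toLp h) = ∫ t in Ioi (0 : ℝ), g t * h t := by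
  rw [L2.inner_def]
  refine integral_congr_ae ?_
  filter_upwards [hg.coeFn_toLp, hh.coeFn_toLp] with t h1 h2
  rw [h1, h2]
  simp [mul_comm]

theorem restrict_Ioc (t : ℝ) :
    (volume.restrict (Ioi (0 : ℝ))).restrict (Ioc 0 t) = volume.restrict (Ioc 0 t) := by
  rw [Measure.restrict_restrict measurableSet_Ioc]
  congr 1
  exact inter_eq_left.mpr fun x hx => hx.1

theorem Ioc_ne_top (t : ℝ) : (volume.restrict (Ioi (0 : ℝ))) (Ioc 0 t) ≠ ⊤ := by
  refine ne_top_of_le_ne_top ?_ (Measure.restrict_apply_le _ _)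
  simp

/-- `V_g(t)` as an inner product. -/
theorem inner_ind {g : ℝ → ℝ} (w : L2) (hw : (w : ℝ → ℝ) =ᵐ[volume.restrict (Ioi (0 : ℝ))] g)
    (t : ℝ) (ht : 0 ≤ t) :
    inner ℝ w (indicatorConstLp 2 measurableSet_Ioc (Ioc_ne_top t) (1 : ℝ)) = Vg g t := by
  rw [real_inner_comm, L2.inner_indicatorConstLp_one, Vg, intervalIntegral.integral_of_le ht,
    restrict_Ioc]
  refine integral_congr_ae ?_
  have h1 : (w : ℝ → ℝ) =ᵐ[(volume.restrict (Ioi (0 : ℝ))).restrict (Ioc 0 t)] g :=
    ae_restrict_of_ae hw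
  rwa [restrict_Ioc] at h1

theorem contV {g : ℝ → ℝ} (hg : MemLp g 2 (volume.restrict (Ioi (0 : ℝ)))) :
    ContinuousOn (Vg g) (Ici 0) := by
  have hloc : ∀ T : ℝ, 0 ≤ T → IntervalIntegrable g volume 0 T := by
    intro T hT
    rw [intervalIntegrable_iff_integrableOn_Ioc_of_le hT]
    have h1 : MemLp g 2 (volume.restrict (Ioc 0 T)) :=
      hg.mono_measure (Measure.restrict_mono (fun x hx => hx.1) le_rfl)
    exact h1.integrable (by norm_num)
  intro t ht
  have h1 : ContinuousOn (Vg g) (Icc 0 (t + 1)) := by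
    have h2 := intervalIntegral.continuousOn_primitive_interval (μ := volume) (f := g)
      (a := 0) (b := t + 1) (by
        rw [uIcc_of_le (by have : (0:ℝ) ≤ t := ht; linarith), integrableOn_Icc_iff_integrableOn_Ioc]
        exact (intervalIntegrable_iff_integrableOn_Ioc_of_le
          (by have : (0:ℝ) ≤ t := ht; linarith)).mp
          (hloc (t + 1) (by have : (0:ℝ) ≤ t := ht; linarith)))
    rw [uIcc_of_le (by have : (0:ℝ) ≤ t := ht; linarith)] at h2
    exact h2
  have h3 : ContinuousWithinAt (Vg g) (Icc 0 (t + 1)) t :=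
    h1 t ⟨ht, by linarith⟩
  refine h3.mono_of_mem_nhdsWithin ?_
  rw [mem_nhdsWithin]
  exact ⟨Iio (t + 1), isOpen_Iio, by simp, fun y hy => ⟨hy.2, le_of_lt hy.1⟩⟩

theorem lsc (hA : T_adm) : T_lsc := by
  intro xs ells x ell gs C hxs hells hxlim hllim hgs hkin hMf
  haveI : Fact ((2 : ENNReal) ≠ ⊤) := ⟨by norm_num⟩
  have hpi : (0 : ℝ) < 4 * π := by positivity
  have hC : 0 ≤ C := by
    refine le_trans ?_ (hkin 0)
    unfold kin
    have : 0 ≤ ∫ t in Ioi (0 : ℝ), gs 0 t ^ 2 := integral_nonneg fun t => sq_nonneg _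
    positivity
  set A : ℝ := C / (4 * π) with hAdef
  have hA0 : 0 ≤ A := by positivity
  have hgA : ∀ n, ∫ t in Ioi (0 : ℝ), gs n t ^ 2 ≤ A := by
    intro n
    rw [hAdef, le_div_iff₀ hpi]
    have := hkin n
    unfold kin at this
    linarith
  have hF : ∀ n, AdmFacts (gs n) := fun n => hA _ (hgs n)
  let v : ℕ → L2 := fun n => (hgs n).mem.toLp (gs n)
  have hvn : ∀ n, inner ℝ (v n) (v n) = ∫ t in Ioi (0 : ℝ), gs n t ^ 2 := by
    intro n
    rw [inner_toLp]
    exact integral_congr_ae (Eventually.of_forall fun t => by simp only [sq])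
  have hvb : ∀ n, ‖v n‖ ≤ Real.sqrt A := by
    intro n
    apply Real.le_sqrt_of_sq_le
    rw [← real_inner_self_eq_norm_sq, hvn n]
    exact hgA n
  obtain ⟨ψ, hψ, w, hw⟩ := Pool.Agent.H94.Stab.weak_compact v (Real.sqrt A) hvb
  let h : ℝ → ℝ := fun t => (w : ℝ → ℝ) t
  have hmem : MemLp h 2 (volume.restrict (Ioi (0 : ℝ))) := Lp.memLp w
  have hwh : (w : ℝ → ℝ) =ᵐ[volume.restrict (Ioi (0 : ℝ))] h := Eventually.of_forall fun _ => rfl
  -- (1) convergence of the primitives
  have hV : ∀ t, 0 ≤ t → Tendsto (fun n => Vg (gs (ψ n)) t) atTop (𝓝 (Vg h t)) := by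
    intro t ht
    have h1 := hw (indicatorConstLp 2 measurableSet_Ioc (Ioc_ne_top t) (1 : ℝ))
    rw [inner_ind w hwh t ht] at h1
    refine h1.congr fun n => ?_
    exact inner_ind (v (ψ n)) (hgs (ψ n)).mem.coeFn_toLp t ht
  have hVb : ∀ n t, 0 ≤ t → Vg (gs n) t ^ 2 ≤ t * A := by
    intro n t ht
    exact ((hF n).Vbd t ht).trans (mul_le_mul_of_nonneg_left (hgA n) ht)
  -- (2) convergence of the mass functions
  have hS : ∀ t, 0 ≤ t → Tendsto (fun n => Sf (Vg (gs (ψ n))) t) atTop (𝓝 (Sf (Vg h) t)) := by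
    intro t ht
    unfold Sf
    refine Tendsto.const_mul _ ?_
    refine intervalIntegral.tendsto_integral_filter_of_dominated_convergence (fun _ => t * A)
      ?_ ?_ (by simp) ?_
    · refine Eventually.of_forall fun n => ?_
      rw [uIoc_of_le ht]
      refine ContinuousOn.aestronglyMeasurable ?_ measurableSet_Ioc
      exact ((hF (ψ n)).Vcont.mono fun y hy => le_of_lt hy.1).pow 2
    · refine Eventually.of_forall fun n => ae_of_all _ fun y hy => ?_
      rw [uIoc_of_le ht] at hy
      rw [Real.norm_of_nonneg (sq_nonneg _)]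
      exact (hVb (ψ n) y hy.1.le).trans (mul_le_mul_of_nonneg_right hy.2 hA0)
    · refine ae_of_all _ fun y hy => ?_
      rw [uIoc_of_le ht] at hy
      exact (hV y hy.1.le).pow 2
  have hSC : ∀ n t, 0 ≤ t → Sf (Vg (gs n)) t ≤ C := fun n t ht =>
    ((hF n).Sle t ht).trans (hMf n)
  have hShC : ∀ t, 0 ≤ t → Sf (Vg h) t ≤ C := fun t ht =>
    le_of_tendsto (hS t ht) (Eventually.of_forall fun n => hSC (ψ n) t ht)
  -- (3) `h` is admissible
  have hcV := contV hmem
  have hintV : IntegrableOn (fun t => Vg h t ^ 2) (Ioi 0) := by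
    refine integrableOn_Ioi_of_intervalIntegral_norm_bounded (ι := ℕ) (l := atTop)
      (b := fun n => (n : ℝ)) (C / (4 * π)) 0 ?_ tendsto_natCast_atTop_atTop ?_
    · intro i
      have : ContinuousOn (fun t => Vg h t ^ 2) (Icc 0 (i : ℝ)) :=
        (hcV.mono fun y hy => hy.1).pow 2
      exact (this.integrableOn_Icc).mono_set Ioc_subset_Icc_self
    · refine Eventually.of_forall fun i => ?_
      have h1 := hShC (i : ℝ) (Nat.cast_nonneg i)
      unfold Sf at h1
      rw [le_div_iff₀ hpi]
      have h2 : ∫ t in (0 : ℝ)..(i : ℝ), ‖Vg h t ^ 2‖ = ∫ t in (0 : ℝ)..(i : ℝ), Vg h t ^ 2 := by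
        refine intervalIntegral.integral_congr fun t _ => ?_
        simp only [Real.norm_of_nonneg (sq_nonneg _)]
      rw [h2]; linarith
  have hmemV : MemLp (Vg h) 2 (volume.restrict (Ioi (0 : ℝ))) := by
    rw [memLp_two_iff_integrable_sq]
    · exact hintV
    · exact ContinuousOn.aestronglyMeasurable (hcV.mono Ioi_subset_Ici_self) measurableSet_Ioi
  have hadm : Adm h := ⟨hmem, hmemV⟩
  have hFh := hA h hadm
  refine ⟨ψ, h, hψ, hadm, hV, hS, ?_, ?_⟩
  · -- (4)
    intro K hK
    refine le_of_tendsto hFh.Slim ?_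
    filter_upwards [eventually_ge_atTop (0 : ℝ)] with t ht
    refine le_of_tendsto (hS t ht) ?_
    filter_upwards [hK] with n hn
    exact ((hF (ψ n)).Sle t ht).trans hn
  · -- (5)
    intro K hK
    -- convergence of the attraction term
    have hx0 : 0 ≤ x := ge_of_tendsto' hxlim hxs
    set B : ℝ := (2 * π * A + (2 * π * A) ^ 2 / 2) + (C + C ^ 2 / 2) with hB
    have hB0 : 0 ≤ B := by positivity
    have hatt : Tendsto (fun n => att (xs (ψ n)) (gs (ψ n))) atTop (𝓝 (att x h)) := by
      unfold att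
      refine tendsto_integral_of_dominated_convergence (fun t => 2 * B * (1 + t ^ 2)⁻¹) ?_ ?_ ?_ ?_
      · intro n
        refine ContinuousOn.aestronglyMeasurable ?_ measurableSet_Ioi
        have hSc : ContinuousOn (Sf (Vg (gs (ψ n)))) (Ioi 0) :=
          (hF (ψ n)).Scont.mono Ioi_subset_Ici_self
        refine ContinuousOn.div (hSc.sub ((hSc.pow 2).div_const 2)) ?_ ?_
        · exact ((continuous_const.add continuous_id).pow 2).continuousOn
        · intro t ht
          have h1 : 0 < t := ht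
          have h2 := hxs (ψ n)
          positivity
      · exact (integrable_inv_one_add_sq.const_mul (2 * B)).integrableOn
      · intro n
        refine (ae_restrict_mem measurableSet_Ioi).mono fun t ht => ?_
        have ht0 : 0 < t := ht
        have hxn := hxs (ψ n)
        have hS0 := (hF (ψ n)).Snn t ht0.le
        have hS1 := hSC (ψ n) t ht0.le
        have hS2 : Sf (Vg (gs (ψ n))) t ≤ 2 * π * t ^ 2 * A :=
          ((hF (ψ n)).Sbd t ht0.le).trans (mul_le_mul_of_nonneg_left (hgA _) (by positivity))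
        set S := Sf (Vg (gs (ψ n))) t
        rw [norm_div, Real.norm_of_nonneg (show (0 : ℝ) ≤ (xs (ψ n) + t) ^ 2 by positivity)]
        have hnum : ‖S - S ^ 2 / 2‖ ≤ S + S ^ 2 / 2 := by
          rw [Real.norm_eq_abs, abs_le]
          constructor <;> nlinarith
        have hden : t ^ 2 ≤ (xs (ψ n) + t) ^ 2 := by
          apply pow_le_pow_left₀ ht0.le; linarith
        calc ‖S - S ^ 2 / 2‖ / (xs (ψ n) + t) ^ 2 ≤ (S + S ^ 2 / 2) / t ^ 2 := by
              apply div_le_div₀ (by positivity) hnum (by positivity) hden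
          _ ≤ 2 * B * (1 + t ^ 2)⁻¹ := by
              rw [← div_eq_mul_inv, div_le_div_iff₀ (by positivity) (by positivity)]
              rcases le_total t 1 with h1 | h1
              · -- `t ≤ 1`
                have e1 : S + S ^ 2 / 2 ≤ t ^ 2 * (2 * π * A + (2 * π * A) ^ 2 / 2) := by
                  have h3 : S ^ 2 ≤ (2 * π * t ^ 2 * A) ^ 2 := pow_le_pow_left₀ hS0 hS2 2
                  have h4 : (2 * π * t ^ 2 * A) ^ 2 ≤ t ^ 2 * (2 * π * A) ^ 2 := by
                    have h5 : t ^ 4 ≤ t ^ 2 := pow_le_pow_of_le_one ht0.le h1 (by norm_num)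
                    have h6 : 0 ≤ (2 * π * A) ^ 2 := sq_nonneg _
                    nlinarith
                  nlinarith
                have e2 : 2 * π * A + (2 * π * A) ^ 2 / 2 ≤ B := by
                  have : 0 ≤ C + C ^ 2 / 2 := by positivity
                  linarith
                have e3 : 1 + t ^ 2 ≤ 2 := by nlinarith
                calc (S + S ^ 2 / 2) * (1 + t ^ 2) ≤ (t ^ 2 * B) * 2 := by
                      apply mul_le_mul _ e3 (by positivity) (by positivity)
                      exact e1.trans (mul_le_mul_of_nonneg_left e2 (by positivity))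
                  _ = 2 * B * t ^ 2 := by ring
              · -- `1 ≤ t`
                have e1 : S + S ^ 2 / 2 ≤ B := by
                  have h3 : S ^ 2 ≤ C ^ 2 := pow_le_pow_left₀ hS0 hS1 2
                  have : 0 ≤ 2 * π * A + (2 * π * A) ^ 2 / 2 := by positivity
                  linarith
                have e3 : 1 + t ^ 2 ≤ 2 * t ^ 2 := by nlinarith
                calc (S + S ^ 2 / 2) * (1 + t ^ 2) ≤ B * (2 * t ^ 2) := by
                      apply mul_le_mul e1 e3 (by positivity) hB0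
                  _ = 2 * B * t ^ 2 := by ring
      · refine (ae_restrict_mem measurableSet_Ioi).mono fun t ht => ?_
        have ht0 : 0 < t := ht
        have h1 := hS t ht0.le
        have h2 : Tendsto (fun n => xs (ψ n)) atTop (𝓝 x) := hxlim.comp hψ.tendsto_atTop
        refine Tendsto.div (h1.sub ((h1.pow 2).div_const 2)) ((h2.add_const t).pow 2) ?_
        positivity
    have hl : Tendsto (fun n => ells (ψ n)) atTop (𝓝 ell) := hllim.comp hψ.tendsto_atTop
    have hell0 : 0 ≤ ell := ge_of_tendsto' hllim hells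
    have hww : inner ℝ w w = ∫ t in Ioi (0 : ℝ), h t ^ 2 := by
      have e : w = hmem.toLp h := by
        apply Lp.ext
        exact hmem.coeFn_toLp.symm
      have := inner_toLp hmem hmem
      rw [← e] at this
      rw [this]
      exact integral_congr_ae (Eventually.of_forall fun t => by simp only [sq])
    have key : ∀ t, 0 ≤ t → 4 * π * inner ℝ w w + ell * Sf (Vg h) t - att x h ≤ K := by
      intro t ht
      have hlim : Tendsto (fun n => 4 * π * (2 * inner ℝ (v (ψ n)) w - inner ℝ w w)
          + ells (ψ n) * Sf (Vg (gs (ψ n))) t - att (xs (ψ n)) (gs (ψ n))) atTop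
          (𝓝 (4 * π * (2 * inner ℝ w w - inner ℝ w w) + ell * Sf (Vg h) t - att x h)) :=
        (((((hw w).const_mul 2).sub_const _).const_mul _).add (hl.mul (hS t ht))).sub hatt
      have h1 : 4 * π * (2 * inner ℝ w w - inner ℝ w w) + ell * Sf (Vg h) t - att x h ≤ K := by
        refine le_of_tendsto hlim ?_
        filter_upwards [hK] with n hn
        unfold J at hn
        have e1 : 2 * inner ℝ (v (ψ n)) w - inner ℝ w w ≤ ∫ t in Ioi (0 : ℝ), gs (ψ n) t ^ 2 := by
          rw [← hvn (ψ n)]
          have h2 : 0 ≤ inner ℝ (v (ψ n) - w) (v (ψ n) - w) := real_inner_self_nonneg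
          rw [inner_sub_left, inner_sub_right, inner_sub_right, real_inner_comm w (v (ψ n))] at h2
          have h3 := real_inner_comm w (v (ψ n))
          linarith
        have e2 : 4 * π * (2 * inner ℝ (v (ψ n)) w - inner ℝ w w) ≤ kin (gs (ψ n)) := by
          unfold kin
          exact mul_le_mul_of_nonneg_left e1 hpi.le
        have e3 : ells (ψ n) * Sf (Vg (gs (ψ n))) t ≤ ells (ψ n) * Mf (Vg (gs (ψ n))) :=
          mul_le_mul_of_nonneg_left ((hF (ψ n)).Sle t ht) (hells _)
        linarith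
      linarith
    have hfinal : Tendsto (fun t => 4 * π * inner ℝ w w + ell * Sf (Vg h) t - att x h) atTop
        (𝓝 (4 * π * inner ℝ w w + ell * Mf (Vg h) - att x h)) :=
      ((hFh.Slim.const_mul ell).const_add _).sub_const _
    have := le_of_tendsto hfinal (by
      filter_upwards [eventually_ge_atTop (0 : ℝ)] with t ht
      exact key t ht)
    unfold J kin
    rw [← hww]
    exact this

end Pool.Agent.H47.HM.LSC
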