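import Pool.Agent.H99.HM.Targets

/-! # MP_6a9259_mp, modules MIN, EX0, CONTZ, EINF -/

set_option autoImplicit false

namespace Pool.Agent.H47.HM.MIN

open MeasureTheory Set Filter Topology Real
open Pool.Agent.H99.HM

theorem Sf_congr {f g : ℝ → ℝ} (h : ∀ t, 0 ≤ t → f t = g t) : ∀ t, 0 ≤ t → Sf f t = Sf g t := by
  intro t ht
  unfold Sf
  congr 1
  refine intervalIntegral.integral_congr fun τ hτ => ?_
  rw [uIcc_of_le ht] at hτ
  simp only [h τ hτ.1]

theorem Mf_nonneg (s : ℝ → ℝ) : 0 ≤ Mf s := by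
  unfold Mf
  have : 0 ≤ ∫ t in Ioi (0 : ℝ), s t ^ 2 := integral_nonneg fun t => sq_nonneg _
  positivity

theorem kin_nonneg (s : ℝ → ℝ) : 0 ≤ kin s := by
  unfold kin
  have : 0 ≤ ∫ t in Ioi (0 : ℝ), s t ^ 2 := integral_nonneg fun t => sq_nonneg _
  positivity

/-- `J` of an admissible function with vanishing primitive is the kinetic energy. -/
theorem J_of_zero {x ell : ℝ} {h : ℝ → ℝ} (hz : ∀ t, 0 ≤ t → Vg h t = 0) :
    J x ell h = kin h := by
  have hS0 : ∀ t, 0 ≤ t → Sf (Vg h) t = 0 := by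
    intro t ht
    rw [Sf_congr (g := fun _ => 0) hz t ht]
    simp [Sf]
  have hatt : att x h = 0 := by
    unfold att
    have e : ∫ t in Ioi (0 : ℝ), (Sf (Vg h) t - Sf (Vg h) t ^ 2 / 2) / (x + t) ^ 2
        = ∫ t in Ioi (0 : ℝ), (0 : ℝ) := by
      refine setIntegral_congr_fun measurableSet_Ioi fun t ht => ?_
      simp [hS0 t (le_of_lt ht)]
    rw [e]; simp
  have hM : Mf (Vg h) = 0 := by
    unfold Mf
    have e : ∫ t in Ioi (0 : ℝ), Vg h t ^ 2 = ∫ t in Ioi (0 : ℝ), (0 : ℝ) := by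
      refine setIntegral_congr_fun measurableSet_Ioi fun t ht => ?_
      simp [hz t (le_of_lt ht)]
    rw [e]; simp
  unfold J
  rw [hatt, hM]; ring

theorem adm_zero : Adm (fun _ => (0 : ℝ)) := by
  refine ⟨MemLp.zero, ?_⟩
  have : Vg (fun _ => (0 : ℝ)) = fun _ => 0 := by
    funext t; simp [Vg]
  rw [this]; exact MemLp.zero

theorem ex0 (hExp : T_exp) (hEL : T_EL) (hN : T_neg) (hF : T_facts)
    (hC : T_comp) : T_ex0 := by
  intro x hx
  obtain ⟨g, hg, hneg⟩ := hN x hx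
  have hJ : ∀ ell, J x ell g = J x 0 g + ell * Mf (Vg g) := by
    intro ell; unfold J; ring
  -- a bound for the parameter
  set ell0 : ℝ := -(J x 0 g) / (Mf (Vg g) + 1) / 2 with hell0
  have hM := Mf_nonneg (Vg g)
  have hell0pos : 0 < ell0 := by
    have : 0 < -(J x 0 g) := by linarith
    positivity
  have hsmall : ∀ ell, 0 ≤ ell → ell ≤ ell0 → J x ell g < 0 := by
    intro ell h0 h1
    rw [hJ]
    have h2 : ell * (Mf (Vg g) + 1) ≤ -(J x 0 g) / 2 := by
      calc ell * (Mf (Vg g) + 1) ≤ ell0 * (Mf (Vg g) + 1) :=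
            mul_le_mul_of_nonneg_right h1 (by linarith)
        _ = -(J x 0 g) / 2 := by rw [hell0]; field_simp
    have h3 : ell * Mf (Vg g) ≤ ell * (Mf (Vg g) + 1) :=
      mul_le_mul_of_nonneg_left (by linarith) h0
    linarith
  let ells : ℕ → ℝ := fun n => ell0 / ((n : ℝ) + 1)
  have hepos : ∀ n, 0 < ells n := fun n => by positivity
  have hele : ∀ n, ells n ≤ ell0 := by
    intro n
    apply div_le_self hell0pos.le
    have : (0 : ℝ) ≤ n := Nat.cast_nonneg n
    linarith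
  have helim : Tendsto ells atTop (𝓝 0) := by
    have := (tendsto_one_div_add_atTop_nhds_zero_nat (𝕜 := ℝ)).const_mul ell0
    simp only [mul_zero] at this
    refine this.congr fun n => ?_
    simp only [ells]; ring
  have hex : ∀ n, ∃ s s1, Ext x (ells n) s s1 := by
    intro n
    obtain ⟨k, hk⟩ := hExp x (ells n) hx (hepos n)
    rcases hEL x (ells n) k hx (hepos n).le hk with hz | ⟨s, s1, hs, -, -⟩
    · exfalso
      have h1 := hk.2 g hg
      rw [J_of_zero hz] at h1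
      have h2 := hsmall (ells n) (hepos n).le (hele n)
      have h3 := kin_nonneg k
      linarith
    · exact ⟨s, s1, hs⟩
  choose ss s1s hExt using hex
  obtain ⟨ψ, h, r, r1, hψ, -, -, -, hS, hor⟩ := hC (fun _ => x) ells x 0 ss s1s
    tendsto_const_nhds helim hExt
  rcases hor with ⟨h0, -⟩ | hr
  · exact absurd h0 (lt_irrefl _)
  refine ⟨r, r1, hr, fun ε hε => ?_⟩
  have hFr := hF _ _ _ _ hr
  have h1 : ∀ᶠ t in atTop, Mf r - ε / 2 < Sf r t :=
    hFr.Slim.eventually (lt_mem_nhds (by linarith))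
  obtain ⟨t, ht1, ht0⟩ := (h1.and (eventually_ge_atTop (0 : ℝ))).exists
  have h2 : ∀ᶠ n in atTop, Mf r - ε < Sf (ss (ψ n)) t :=
    (hS t ht0).eventually (lt_mem_nhds (by linarith))
  have h3 : ∀ᶠ n in atTop, ells (ψ n) < ε :=
    (helim.comp hψ.tendsto_atTop).eventually (gt_mem_nhds hε)
  obtain ⟨n, hn1, hn2⟩ := (h2.and h3).exists
  exact ⟨ells (ψ n), ss (ψ n), s1s (ψ n), hepos _, hn2, hExt _,
    hn1.trans ((hF _ _ _ _ (hExt (ψ n))).Slt t ht0)⟩

theorem contz (hC : T_comp) (hU : T_uniq) : T_contz := by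
  intro zs y ss s1s s s1 hz hExt hs t ht
  refine tendsto_of_subseq_tendsto fun φ hφ => ?_
  obtain ⟨ψ, h, r, r1, hψ, -, -, -, hS, hor⟩ := hC (fun n => zs (φ n)) (fun _ => 0) y 0
    (fun n => ss (φ n)) (fun n => s1s (φ n)) (hz.comp hφ) tendsto_const_nhds
    (fun n => hExt (φ n))
  rcases hor with ⟨h0, -⟩ | hr
  · exact absurd h0 (lt_irrefl _)
  refine ⟨ψ, ?_⟩
  have e : Sf s t = Sf r t := Sf_congr (fun τ hτ => (hU _ _ _ _ _ _ hs hr τ hτ).1) t ht
  rw [e]
  exact hS t ht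

theorem einf (hA : T_adm) (hE : T_energy) (hMin : T_min) (hExp : T_exp) (hEL : T_EL)
    (hX : T_ex0) : T_einf := by
  intro x ell hx hell
  have hbb : BddBelow (J x ell '' {g | Adm g}) := by
    refine ⟨-(1 / 2), ?_⟩
    rintro _ ⟨g, hg, rfl⟩
    have h1 := (hA g hg).Jbd x ell hx
    have h2 : 0 ≤ ∫ τ in Ioi (0 : ℝ), g τ ^ 2 := integral_nonneg fun t => sq_nonneg _
    have h3 : 0 ≤ 2 * π * (∫ τ in Ioi (0 : ℝ), g τ ^ 2) := by positivity
    have h4 : 0 ≤ ell * Mf (Vg g) := mul_nonneg hell (Mf_nonneg _)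
    linarith
  have hle : ∀ h, Adm h → Einf x ell ≤ J x ell h := fun h hh => csInf_le hbb ⟨h, hh, rfl⟩
  have hzero : Einf x ell ≤ 0 := by
    have h1 := hle _ adm_zero
    rw [J_of_zero (fun t _ => by simp [Vg])] at h1
    have : kin (fun _ => (0 : ℝ)) = 0 := by simp [kin]
    linarith
  refine ⟨?_, hle, ?_, hzero⟩
  · intro s s1 hs
    apply le_antisymm (hle _ (hE _ _ _ _ hs).1)
    refine le_csInf ⟨_, _, adm_zero, rfl⟩ ?_
    rintro _ ⟨g, hg, rfl⟩
    obtain ⟨-, h1⟩ := hMin _ _ _ _ hs g hg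
    have h2 : 0 ≤ ∫ t in Ioi (0 : ℝ), (Sf (Vg g) t - Sf s t) ^ 2 / (x + t) ^ 2 :=
      integral_nonneg fun t => by positivity
    linarith
  · intro hno
    apply le_antisymm hzero
    have hpos : 0 < ell := by
      rcases hell.lt_or_eq with h | h
      · exact h
      · exfalso
        obtain ⟨s, s1, hs, -⟩ := hX x hx
        exact hno ⟨s, s1, h ▸ hs⟩
    obtain ⟨g, hg⟩ := hExp x ell hx hpos
    rcases hEL x ell g hx hell hg with hz | ⟨s, s1, hs, -, -⟩
    · refine le_csInf ⟨_, _, adm_zero, rfl⟩ ?_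
      rintro _ ⟨k, hk, rfl⟩
      have h1 := hg.2 k hk
      rw [J_of_zero hz] at h1
      exact (kin_nonneg g).trans h1
    · exact absurd ⟨s, s1, hs⟩ hno

theorem min (hF : T_facts) (hA : T_adm) (hE : T_energy) (hG : T_gs1) : T_min := by
  intro x ell s s1 hs h hh
  have hx := hs.x0
  have hFs := hF _ _ _ _ hs
  obtain ⟨hadm1, -, -, hJs, -⟩ := hE _ _ _ _ hs
  have hAs := hA _ hadm1
  have hAh := hA _ hh
  have hSs : ∀ t, 0 ≤ t → Sf (Vg s1) t = Sf s t := Sf_congr hFs.vg
  set S := Sf s with hSdef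
  set Sh := Sf (Vg h) with hShdef
  -- integrability
  have i1 : IntegrableOn (fun t => Sh t / (x + t) ^ 2) (Ioi 0) := hAh.int1 x hx
  have i2 : IntegrableOn (fun t => Sh t ^ 2 / (x + t) ^ 2) (Ioi 0) := hAh.int2 x hx
  have i4 : IntegrableOn (fun t => S t ^ 2 / (x + t) ^ 2) (Ioi 0) := by
    refine (hAs.int2 x hx).congr_fun (fun t ht => ?_) measurableSet_Ioi
    simp only [hSs t (le_of_lt ht)]
  have i3 : IntegrableOn (fun t => S t * Sh t / (x + t) ^ 2) (Ioi 0) := by
    refine Integrable.mono' (i2.add i4) ?_ ?_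
    · refine ContinuousOn.aestronglyMeasurable ?_ measurableSet_Ioi
      have h1 : ContinuousOn S (Ioi 0) := hFs.Scont.mono Ioi_subset_Ici_self
      have h2 : ContinuousOn Sh (Ioi 0) := hAh.Scont.mono Ioi_subset_Ici_self
      refine ContinuousOn.div (h1.mul h2) ?_ ?_
      · exact ((continuous_const.add continuous_id).pow 2).continuousOn
      · intro t ht
        have h1 : 0 < t := ht
        positivity
    · refine (ae_restrict_mem measurableSet_Ioi).mono fun t ht => ?_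
      have ht0 : 0 < t := ht
      have hp : 0 < (x + t) ^ 2 := by positivity
      simp only [Pi.add_apply]
      rw [norm_div, Real.norm_of_nonneg hp.le, ← add_div]
      apply div_le_div_of_nonneg_right _ hp.le
      rw [Real.norm_eq_abs, abs_le]
      constructor <;> nlinarith [sq_nonneg (S t + Sh t), sq_nonneg (S t - Sh t), sq_nonneg (S t),
        sq_nonneg (Sh t)]
  obtain ⟨i5, hgs⟩ := hG _ _ _ _ hs h hh
  -- the quadratic remainder
  have hq : (fun t => (Sh t - S t) ^ 2 / (x + t) ^ 2) = fun t => Sh t ^ 2 / (x + t) ^ 2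
      - 2 * (S t * Sh t / (x + t) ^ 2) + S t ^ 2 / (x + t) ^ 2 := by
    funext t; ring
  have iq : IntegrableOn (fun t => (Sh t - S t) ^ 2 / (x + t) ^ 2) (Ioi 0) := by
    rw [hq]; exact (i2.sub (i3.const_mul 2)).add i4
  refine ⟨iq, ?_⟩
  have eq1 : ∫ t in Ioi (0 : ℝ), (Sh t - S t) ^ 2 / (x + t) ^ 2
      = (∫ t in Ioi (0 : ℝ), Sh t ^ 2 / (x + t) ^ 2)
        - 2 * (∫ t in Ioi (0 : ℝ), S t * Sh t / (x + t) ^ 2)
        + ∫ t in Ioi (0 : ℝ), S t ^ 2 / (x + t) ^ 2 := by
    have i23 : IntegrableOn (fun t => Sh t ^ 2 / (x + t) ^ 2 - 2 * (S t * Sh t / (x + t) ^ 2))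
      (Ioi 0) := i2.sub (i3.const_mul 2)
    rw [hq, integral_add i23 i4, integral_sub i2 (i3.const_mul 2), integral_const_mul]
  -- the attraction term
  have eq2 : att x h = (∫ t in Ioi (0 : ℝ), Sh t / (x + t) ^ 2)
      - (∫ t in Ioi (0 : ℝ), Sh t ^ 2 / (x + t) ^ 2) / 2 := by
    unfold att
    have e : (fun t => (Sf (Vg h) t - Sf (Vg h) t ^ 2 / 2) / (x + t) ^ 2)
        = fun t => Sh t / (x + t) ^ 2 - 1 / 2 * (Sh t ^ 2 / (x + t) ^ 2) := by
      funext t; simp only [← hShdef]; ring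
    rw [e, integral_sub i1 (i2.const_mul _), integral_const_mul]; ring
  -- integration by parts
  have i6 : IntegrableOn (fun t => phi x s t * (4 * π * Vg h t ^ 2)
      - (Sh t / (x + t) ^ 2 - S t * Sh t / (x + t) ^ 2)) (Ioi 0) := by
    refine Integrable.sub ?_ (i1.sub i3)
    refine (i5.const_mul (4 * π)).congr (Eventually.of_forall fun t => ?_)
    ring
  have hibp := integral_Ioi_of_hasDerivAt_of_tendsto (a := 0) (m := 0)
    (f := fun t => phi x s t * Sh t)
    (f' := fun t => phi x s t * (4 * π * Vg h t ^ 2)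
      - (Sh t / (x + t) ^ 2 - S t * Sh t / (x + t) ^ 2)) ?_ ?_ i6 ?_
  rotate_left
  · -- continuity at 0
    have h0 : phi x s 0 * Sh 0 = 0 := by rw [hShdef, hAh.S0, mul_zero]
    rw [ContinuousWithinAt, h0]
    rw [← Ioi_insert, nhdsWithin_insert, tendsto_sup]
    refine ⟨?_, ?_⟩
    · have := tendsto_pure_nhds (fun t => phi x s t * Sh t) 0
      rw [h0] at this
      exact this
    · set Ih := ∫ τ in Ioi (0 : ℝ), h τ ^ 2 with hIh
      have hIh0 : 0 ≤ Ih := integral_nonneg fun t => sq_nonneg _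
      have hMs := hFs.mpos
      have hb : ∀ t ∈ Ioi (0 : ℝ), ‖phi x s t * Sh t‖ ≤ (1 + Mf s) * (2 * π * Ih) * t := by
        intro t ht
        have ht0 : 0 < t := ht
        rw [norm_mul, Real.norm_eq_abs, Real.norm_of_nonneg (hAh.Snn t ht0.le)]
        have e1 : |phi x s t| ≤ (1 + Mf s) / t := (hFs.phiBd t ht0).trans (by
          apply div_le_div_of_nonneg_left (by linarith) ht0 (by linarith))
        have e2 := hAh.Sbd t ht0.le
        calc |phi x s t| * Sh t ≤ ((1 + Mf s) / t) * (2 * π * t ^ 2 * Ih) := by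
              apply mul_le_mul e1 e2 (hAh.Snn t ht0.le) (by positivity)
          _ = (1 + Mf s) * (2 * π * Ih) * t := by field_simp
      refine squeeze_zero_norm' (a := fun t => (1 + Mf s) * (2 * π * Ih) * t)
        (eventually_nhdsWithin_of_forall hb) ?_
      have : Tendsto (fun t : ℝ => (1 + Mf s) * (2 * π * Ih) * t) (𝓝 0) (𝓝 0) := by
        have := (show Continuous (fun t : ℝ => (1 + Mf s) * (2 * π * Ih) * t) by fun_prop).tendsto 0
        rwa [mul_zero] at this
      exact this.mono_left nhdsWithin_le_nhds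
  · intro t ht
    have ht0 : 0 < t := ht
    have h9 : HasDerivAt (fun t => phi x s t * Sh t)
        (-((1 - S t) / (x + t) ^ 2) * Sh t + phi x s t * (4 * π * Vg h t ^ 2)) t :=
      (hFs.phiDer t ht0).mul (hAh.Sder t ht0)
    refine h9.congr_deriv ?_
    ring
  · have := hFs.phiLim.mul hAh.Slim
    simpa using this
  have h0 : phi x s 0 * Sh 0 = 0 := by rw [hShdef, hAh.S0, mul_zero]
  simp only [h0, sub_zero] at hibp
  have i7 : IntegrableOn (fun t => phi x s t * (4 * π * Vg h t ^ 2)) (Ioi 0) := by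
    refine (i5.const_mul (4 * π)).congr (Eventually.of_forall fun t => ?_)
    ring
  have i13 : IntegrableOn (fun t => Sh t / (x + t) ^ 2 - S t * Sh t / (x + t) ^ 2) (Ioi 0) :=
    i1.sub i3
  rw [integral_sub i7 i13, integral_sub i1 i3] at hibp
  have e7 : ∫ t in Ioi (0 : ℝ), phi x s t * (4 * π * Vg h t ^ 2)
      = 4 * π * ∫ t in Ioi (0 : ℝ), phi x s t * Vg h t ^ 2 := by
    rw [← integral_const_mul]
    refine integral_congr_ae (Eventually.of_forall fun t => ?_)
    simp only; ring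
  have e8 : ∫ t in Ioi (0 : ℝ), (phi x s t - ell) * Vg h t ^ 2
      = (∫ t in Ioi (0 : ℝ), phi x s t * Vg h t ^ 2) - ell * ∫ t in Ioi (0 : ℝ), Vg h t ^ 2 := by
    rw [← integral_const_mul, ← integral_sub i5 (hAh.intV.const_mul ell)]
    refine integral_congr_ae (Eventually.of_forall fun t => ?_)
    simp only; ring
  rw [e8] at hgs
  rw [e7] at hibp
  rw [hJs, eq1]
  unfold J
  rw [eq2]
  unfold kin Mf Iw
  have hpi : 0 < 4 * π := by positivity
  have hgs' := mul_le_mul_of_nonneg_left hgs hpi.le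
  rw [mul_sub] at hgs'
  simp only [← hSdef]
  linarith

end Pool.Agent.H47.HM.MIN
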